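import Pool.Agent.Helper77_LRG.MCH
import Pool.Agent.Helper48_LRG.SPL
import Pool.Agent.Helper6_LRG.TRC
import Pool.Agent.Helper27_LRG.SIZ
import Pool.Agent.Helper40_LRG.UNM
import Pool.Agent.Helper94_LRG.SHF
import Pool.Agent.Helper41_LRG.MAP
import Pool.Agent.Helper92_LRG.PCM
import Pool.Agent.Helper95_LRG.UNV
import Pool.Agent.Helper44_LRG.CRG
import Pool.Agent.Helper40_LRG.FLG
import Pool.Agent.Helper41_LRG.FAL
import Pool.Agent.Helper88_LRG.GEN

/-!
# Squad LRG: block A without hypotheses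
-/

set_option autoImplicit false

namespace Pool.Agent.LRG.H5

theorem unvConcl : UnvConcl :=
  H95.unv H40.unm H94.shf H41.map Pool.Agent.Helper92_LRG.pcm

theorem falConcl : FalConcl :=
  H41.fal H88.gen H77.mch H48.spl H6.trc H44.crg H40.flg

theorem sizConcl : SizConcl :=
  H27.siz H88.gen H77.mch H48.spl H6.trc

end Pool.Agent.LRG.H5
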