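import Pool.Agent.LRG.StmtsC

/-!
# Squad LRG, row NMC: the specialized constants have absolute value one
-/

set_option autoImplicit false

open Polynomial NumberField

namespace Pool.Agent.LRG.H5

open Pool.Agent.LRG.CX

theorem nmc (cpr : CprStmt) (run : RunStmt) (mrt : MrtStmt) (nor : NorStmt) (inf : InfStmt)
    (nrm : NrmStmt) (nr2 : Nr2Stmt) (mch : A.MchStmt) : NmcStmt := by
  intro Ω _ _ n r p q z₀ e η D x B N z g K _ u π hs hfin hK μ hμ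
  have hprod : ∀ i, ∏ j, x i j = 1 ∨ ∏ j, x i j = -1 :=
    fun i => cpr Ω n (e i) _ (x i) hs.hn (hs.he i) (hs.split i)
  have hx : ∀ i j, x i j ∈ Rx η x := fun i j => Subring.subset_closure (Or.inr ⟨(i, j), rfl⟩)
  obtain ⟨hx0, hmem, hg⟩ := run Ω n r (Rx η x) x hx hprod
  obtain ⟨hg0, hgμ⟩ := hg ℂ g
  have hβ : ∏ k, x k.1 k.2 ^ μ k ∈ Rx η x := hmem μ
  have h1 : g ⟨_, hβ⟩ = ∏ k : Fin r × Fin n, (π k.1 k.2 ((u k.1 : 𝓞 K) : K)) ^ μ k := by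
    rw [hgμ μ hβ]
    refine Finset.prod_congr rfl fun k _ => ?_
    rw [hs.gx]
  have hnorm : Normal ℚ (CjF (Cst D x)) := nor Ω (Cst D x) (by
    rintro β ⟨μ, h, rfl⟩
    exact hs.alg μ h)
  have h2 : g ⟨_, hβ⟩ ∈ CjF (Cst D x) :=
    IntermediateField.subset_adjoin _ _
      ⟨_, ⟨μ, hμ, rfl⟩, mrt Ω (Rx η x) g ⟨_, hβ⟩ (hs.alg μ hμ)⟩
  rw [h1] at h2
  have hint : ∀ k : Fin r × Fin n, IsIntegral ℚ (π k.1 k.2 ((u k.1 : 𝓞 K) : K)) := by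
    intro k
    have h3 : IsIntegral ℚ ((u k.1 : 𝓞 K) : K) := Algebra.IsIntegral.isIntegral _
    exact h3.map (RingHom.toRatAlgHom (π k.1 k.2))
  have hmin : ∀ k : Fin r × Fin n,
      minpoly (CjF (Cst D x)) (π k.1 k.2 ((u k.1 : 𝓞 K) : K)) =
        (minpoly ℚ (π k.1 k.2 ((u k.1 : 𝓞 K) : K))).map (algebraMap ℚ _) :=
    fun k => nrm _ hfin hnorm _ (hint k) (inf K _ hs.prim hnorm hK (π k.1 k.2) _)
  refine nr2 (CjF (Cst D x)) (Fin r × Fin n) (fun k => π k.1 k.2 ((u k.1 : 𝓞 K) : K)) μ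
    (fun k => (hint k).tower_top) (fun k => ?_) h2
  have h3 : minpoly ℚ (π k.1 k.2 ((u k.1 : 𝓞 K) : K)) = minpoly ℚ ((u k.1 : 𝓞 K) : K) :=
    minpoly.algHom_eq (RingHom.toRatAlgHom (π k.1 k.2)) (π k.1 k.2).injective _
  have h4 : minpoly ℚ ((u k.1 : 𝓞 K) : K) =
      (minpoly ℤ (u k.1 : 𝓞 K)).map (algebraMap ℤ ℚ) :=
    minpoly.isIntegrallyClosed_eq_field_fractions ℚ K
      (Algebra.IsIntegral.isIntegral (R := ℤ) (u k.1 : 𝓞 K))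
  have h5 := (mch n K (u k.1) hs.deg (hs.gen k.1)).2
  rw [hmin k, coeff_map, h3, h4, coeff_map]
  rcases h5 with h5 | h5
  · left
    rw [h5]
    simp
  · right
    rw [h5]
    simp

end Pool.Agent.LRG.H5
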