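import Pool.Agent.Helper5_LRG.AssA
import Pool.Agent.Helper5_LRG.NMC
import Pool.Agent.Helper99_LRG.LYO
import Pool.Agent.Helper77_LRG.OMR
import Pool.Agent.Helper64_LRG.CPR
import Pool.Agent.Helper39_LRG.RUN
import Pool.Agent.Helper85_LRG.SPZ
import Pool.Agent.Helper17_LRG.MAT
import Pool.Agent.Helper40_LRG.KC1
import Pool.Agent.Helper81_LRG.KCO
import Pool.Agent.Helper9_LRG.ALG
import Pool.Agent.Helper29_LRG.MRT
import Pool.Agent.Helper32_LRG.NOR
import Pool.Agent.Helper51_LRG.LEN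
import Pool.Agent.Helper32_LRG.INF
import Pool.Agent.Helper40_LRG.NRM
import Pool.Agent.Helper29_LRG.NR2
import Pool.Agent.Helper16_LRG.TPM
import Pool.Agent.Helper39_LRG.CCV
import Pool.Agent.Helper7_LRG.GRZ
import Pool.Agent.Helper95_LRG.GDZ
import Pool.Agent.Helper23_LRG.IND
import Pool.Agent.Helper72_LRG.LGR
import Pool.Agent.Helper40_LRG.LZD
import Pool.Agent.Helper65_LRG.NSF
import Pool.Agent.Helper47_LRG.KLB
import Pool.Agent.Helper88_LRG.BKF

/-!
# Squad LRG: block C without hypotheses except `KolConcl`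
-/

set_option autoImplicit false

namespace Pool.Agent.LRG.H5

theorem nmcT : CX.NmcStmt :=
  nmc H64.cpr H39.run H29.mrt H32.nor H32.inf H40.nrm H29.nr2 H77.mch

theorem klbT : CX.KlbStmt :=
  H47.klb H64.cpr H39.run H77.mch H48.spl H6.trc nmcT H16.tpm (H7.grz H39.ccv) H95.gdz H23.ind
    H72.lgr

theorem algT : CX.AlgStmt :=
  H9.alg H99.lyo (H81.kco H40.kc1) H39.run H64.cpr

theorem blkConcl (hKol : KolConcl) : BlkConcl :=
  H88.bkf hKol H88.gen H77.mch H48.spl H77.omr H64.cpr H39.run (H85.spz H99.lyo)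
    (H17.mat H77.mch H48.spl) algT H29.mrt H51.len H40.lzd H65.nsf klbT

end Pool.Agent.LRG.H5
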