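import Pool.Agent.LRG.StmtsB3
import Pool.Agent.Helper89_LUB.EVH

/-!
# Squad LRG, row EVP: evaluation of power series at arcs
-/

set_option autoImplicit false

open Filter Topology

namespace Pool.Agent.LRG.H5

open scoped MvPowerSeries.WithPiTopology in
theorem evp_aux (p : ℕ) [Fact p.Prime] (σ : Type) [Finite σ]
    (ξ : σ → MvPowerSeries Unit ℤ_[p]) (hξ : ∀ i, ‖MvPowerSeries.constantCoeff (ξ i)‖ < 1) :
    ∃ Φ : MvPowerSeries σ ℤ_[p] →ₐ[ℤ_[p]] MvPowerSeries Unit ℤ_[p],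
      ∀ i, Φ (MvPowerSeries.X i) = ξ i := by
  have := LUB.H89.lin_top p
  have h2 : IsLinearTopology (ℤ_[p])ᵐᵒᵖ ℤ_[p] :=
    IsLinearTopology.mk_of_hasBasis' (ℤ_[p])ᵐᵒᵖ (IsLinearTopology.hasBasis_ideal (R := ℤ_[p]))
      (fun I r m hm => by
        rw [MulOpposite.smul_eq_mul_unop]
        exact I.mul_mem_right _ hm)
  have he : MvPowerSeries.HasEval ξ := by
    refine ⟨fun i => ?_, ?_⟩
    · refine MvPowerSeries.LinearTopology.isTopologicallyNilpotent_of_constantCoeff ?_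
      exact tendsto_pow_atTop_nhds_zero_of_norm_lt_one (hξ i)
    · rw [Filter.cofinite_eq_bot]
      exact tendsto_bot
  refine ⟨MvPowerSeries.aeval he, fun i => ?_⟩
  have h1 := MvPowerSeries.aeval_coe (R := ℤ_[p]) he (MvPolynomial.X i)
  rw [MvPolynomial.coe_X, MvPolynomial.aeval_X] at h1
  exact h1

theorem evp : EvpStmt := by
  intro p _ σ _ ξ hξ
  exact evp_aux p σ ξ hξ

end Pool.Agent.LRG.H5
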